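import Mathlib

/-!
# Weak rainbow saturation: definitions
-/

set_option autoImplicit false

namespace Pool.Agent.V11134.RW

variable {V W : Type}

/-- The edge-coloured graph `(G, c)` contains a rainbow copy of `H`. -/
def HasRainbow (H : SimpleGraph V) (G : SimpleGraph W) (c : Sym2 W → ℕ) : Prop :=
  ∃ f : V → W, Function.Injective f ∧ (∀ u v, H.Adj u v → G.Adj (f u) (f v)) ∧
    Set.InjOn (fun x => c (x.map f)) H.edgeSet

/-- The edge-coloured graph `(G, c)` contains a rainbow copy of `H` one of whose edges is `e`. -/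
def RainbowThrough (H : SimpleGraph V) (G : SimpleGraph W) (c : Sym2 W → ℕ) (e : Sym2 W) : Prop :=
  ∃ f : V → W, Function.Injective f ∧ (∀ u v, H.Adj u v → G.Adj (f u) (f v)) ∧
    Set.InjOn (fun x => c (x.map f)) H.edgeSet ∧ ∃ x ∈ H.edgeSet, x.map f = e

/-- The graph obtained from `G` by adding all missing edges whose number in the ordering `ord` is at most
that of `e`. -/
def stage (G : SimpleGraph W) (ord : Sym2 W → ℕ) (e : Sym2 W) : SimpleGraph W :=
  G ⊔ SimpleGraph.fromEdgeSet {e' | e' ∈ Gᶜ.edgeSet ∧ ord e' ≤ ord e}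

open Classical in
/-- The colouring which is `χ` on the edges of `G` and `col` on the missing edges. -/
noncomputable def fullCol (G : SimpleGraph W) (χ col : Sym2 W → ℕ) (e : Sym2 W) : ℕ :=
  if e ∈ G.edgeSet then χ e else col e

/-- `(G, χ)` is weakly `H`-rainbow saturated: there is an ordering of the missing edges (given by an
injective numbering `ord`) such that, for every choice `col` of pairwise distinct colours for the missing
edges, each missing edge `e` lies in a rainbow copy of `H` right after it has been added. -/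
def WeaklySat (H : SimpleGraph V) (G : SimpleGraph W) (χ : Sym2 W → ℕ) : Prop :=
  ∃ ord : Sym2 W → ℕ, Set.InjOn ord Gᶜ.edgeSet ∧
    ∀ col : Sym2 W → ℕ, Set.InjOn col Gᶜ.edgeSet →
      ∀ e ∈ Gᶜ.edgeSet, RainbowThrough H (stage G ord e) (fullCol G χ col) e

/-- The weak rainbow saturation number. -/
noncomputable def rwsat (n : ℕ) (H : SimpleGraph V) : ℕ∞ :=
  ⨅ (G : SimpleGraph (Fin n)) (χ : Sym2 (Fin n) → ℕ) (_ : WeaklySat H G χ),
    (G.edgeSet.ncard : ℕ∞)

/-- The weak rainbow saturation number, the minimum being over rainbow `H`-free graphs only. -/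
noncomputable def rwsatStar (n : ℕ) (H : SimpleGraph V) : ℕ∞ :=
  ⨅ (G : SimpleGraph (Fin n)) (χ : Sym2 (Fin n) → ℕ) (_ : WeaklySat H G χ ∧ ¬ HasRainbow H G χ),
    (G.edgeSet.ncard : ℕ∞)

end Pool.Agent.V11134.RW
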