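import Pool.Agent.V11134.RW.Lower

/-!
# Lower bound for rainbow-star-free weakly saturated graphs: counting
-/

set_option autoImplicit false

namespace Pool.Agent.V11134.RW

open Finset

variable {n s : ℕ}

theorem cols_card_le_degree (G : SimpleGraph (Fin n)) [DecidableRel G.Adj] (c : Sym2 (Fin n) → ℕ)
    (v : Fin n) : (cols G c v).card ≤ G.degree v := by
  classical
  unfold cols
  refine Finset.card_image_le.trans ?_
  rw [← SimpleGraph.card_neighborFinset_eq_degree]
  refine Finset.card_le_card ?_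
  intro w hw
  rw [SimpleGraph.mem_neighborFinset]
  simpa using hw

/-- The counting argument. -/
theorem counting (hs : 4 ≤ s) (G : SimpleGraph (Fin n)) [DecidableRel G.Adj] (X : Finset (Fin n))
    (hX : ∀ v ∈ X, s ≤ G.degree v + 1) {u1 u2 : Fin n} (hu : u2 ≠ u1) (hu1 : u1 ∈ X) (hu2 : u2 ∈ X)
    (W1 W2 : Finset (Fin n)) (hW1 : W1 ⊆ X) (hW2 : W2 ⊆ X) (hc1 : W1.card + 1 = s)
    (hc2 : W2.card + 2 = s) (hn1 : ∀ w ∈ W1, w ≠ u1 ∧ ¬ G.Adj u1 w)
    (hn2 : ∀ w ∈ W2, w ≠ u2 ∧ w ≠ u1 ∧ ¬ G.Adj u2 w) :
    (s - 1) * (s + 2) < ∑ v, G.degree v := by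
  classical
  by_cases hcard : s + 2 ≤ X.card
  · -- many vertices of large degree
    have hins : insert u1 W1 ⊆ X := Finset.insert_subset hu1 hW1
    have hu1W : u1 ∉ W1 := fun h => (hn1 u1 h).1 rfl
    have hinscard : (insert u1 W1).card = s := by
      rw [Finset.card_insert_of_notMem hu1W]; exact hc1
    obtain ⟨Y, hY1, hY2, hYcard⟩ := Finset.exists_subsuperset_card_eq hins
      (n := s + 2) (by omega) hcard
    -- a neighbour of `u1` outside `Y`
    obtain ⟨p, hp, hpY⟩ : ∃ p, G.Adj u1 p ∧ p ∉ Y := by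
      by_contra hcon
      push Not at hcon
      have h1 : G.neighborFinset u1 ⊆ Y \ insert u1 W1 := by
        intro w hw
        rw [SimpleGraph.mem_neighborFinset] at hw
        refine Finset.mem_sdiff.2 ⟨hcon w hw, fun h => ?_⟩
        rcases Finset.mem_insert.1 h with rfl | h
        · exact G.irrefl hw
        · exact (hn1 w h).2 hw
      have h2 := Finset.card_le_card h1
      rw [SimpleGraph.card_neighborFinset_eq_degree, Finset.card_sdiff_of_subset hY1, hYcard,
        hinscard] at h2
      have := hX u1 hu1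
      omega
    have h3 : ∑ v ∈ insert p Y, G.degree v ≤ ∑ v, G.degree v :=
      Finset.sum_le_sum_of_subset (Finset.subset_univ _)
    rw [Finset.sum_insert hpY] at h3
    have h4 : Y.card * (s - 1) ≤ ∑ v ∈ Y, G.degree v := by
      rw [← smul_eq_mul]
      refine Finset.card_nsmul_le_sum _ _ _ (fun v hv => ?_)
      have := hX v (hY2 hv)
      omega
    have h5 : 0 < G.degree p := by
      rw [SimpleGraph.degree_pos_iff_exists_adj]
      exact ⟨u1, hp.symm⟩
    rw [hYcard] at h4
    have h6 : (s + 2) * (s - 1) = (s - 1) * (s + 2) := Nat.mul_comm _ _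
    omega
  · -- few vertices of large degree
    set D : Finset (Fin n × Fin n) := univ.filter (fun q => G.Adj q.1 q.2) with hD
    have hDcard : D.card = ∑ v, G.degree v := by
      rw [hD, Finset.card_filter, Fintype.sum_prod_type]
      refine Finset.sum_congr rfl (fun v _ => ?_)
      rw [← SimpleGraph.card_neighborFinset_eq_degree, ← Finset.card_filter]
      congr 1
      ext w
      simp
    set I := D.filter (fun q => q.1 ∈ X ∧ q.2 ∈ X) with hI
    set O := D.filter (fun q => q.1 ∈ X ∧ q.2 ∉ X) with hO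
    set O' := D.filter (fun q => q.1 ∉ X ∧ q.2 ∈ X) with hO'
    have hOO : O.card = O'.card := by
      refine Finset.card_bij (fun q _ => (q.2, q.1)) ?_ ?_ ?_
      · intro q hq
        simp only [hO, hD, Finset.mem_filter, Finset.mem_univ, true_and] at hq
        simp only [hO', hD, Finset.mem_filter, Finset.mem_univ, true_and]
        exact ⟨hq.1.symm, hq.2.2, hq.2.1⟩
      · rintro ⟨a, b⟩ _ ⟨a', b'⟩ _ h
        simp only [Prod.mk.injEq] at h ⊢
        exact ⟨h.2, h.1⟩
      · rintro ⟨a, b⟩ hq
        simp only [hO', hD, Finset.mem_filter, Finset.mem_univ, true_and] at hq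
        refine ⟨(b, a), ?_, rfl⟩
        simp only [hO, hD, Finset.mem_filter, Finset.mem_univ, true_and]
        exact ⟨hq.1.symm, hq.2.2, hq.2.1⟩
    have hsum : I.card + O.card + O'.card ≤ D.card := by
      have d1 : Disjoint I O := by
        rw [Finset.disjoint_left]
        intro q hq hq'
        simp only [hI, hO, Finset.mem_filter] at hq hq'
        exact hq'.2.2 hq.2.2
      have d2 : Disjoint (I ∪ O) O' := by
        rw [Finset.disjoint_left]
        intro q hq hq'
        simp only [hI, hO, hO', Finset.mem_union, Finset.mem_filter] at hq hq'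
        rcases hq with hq | hq
        · exact hq'.2.1 hq.2.1
        · exact hq'.2.1 hq.2.1
      rw [← Finset.card_union_of_disjoint d1, ← Finset.card_union_of_disjoint d2]
      refine Finset.card_le_card ?_
      intro q hq
      simp only [hI, hO, hO', Finset.mem_union, Finset.mem_filter] at hq
      rcases hq with (hq | hq) | hq
      · exact hq.1
      · exact hq.1
      · exact hq.1
    have hIO : X.card * (s - 1) ≤ I.card + O.card := by
      have h1 : X.card * (s - 1) ≤ ∑ v ∈ X, G.degree v := by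
        rw [← smul_eq_mul]
        refine Finset.card_nsmul_le_sum _ _ _ (fun v hv => ?_)
        have := hX v hv
        omega
      have h2 : ∑ v ∈ X, G.degree v ≤ (I ∪ O).card := by
        have h3 : ∑ v ∈ X, G.degree v = (X.sigma (fun v => G.neighborFinset v)).card := by
          rw [Finset.card_sigma]
          exact Finset.sum_congr rfl (fun v _ => (SimpleGraph.card_neighborFinset_eq_degree G v).symm)
        rw [h3]
        refine Finset.card_le_card_of_injOn (fun x => (x.1, x.2)) ?_ ?_
        · rintro ⟨v, w⟩ hx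
          rw [Finset.mem_coe, Finset.mem_sigma, SimpleGraph.mem_neighborFinset] at hx
          simp only [hI, hO, hD, Finset.coe_union, Finset.coe_filter, Finset.mem_filter,
            Finset.mem_univ, true_and, Set.mem_union, Set.mem_ofPred_eq]
          by_cases hw : w ∈ X
          · exact Or.inl ⟨hx.2, hx.1, hw⟩
          · exact Or.inr ⟨hx.2, hx.1, hw⟩
        · rintro ⟨v, w⟩ _ ⟨v', w'⟩ _ h
          simp only [Prod.mk.injEq] at h
          obtain ⟨rfl, rfl⟩ := h
          rfl
      exact h1.trans (h2.trans (Finset.card_union_le _ _))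
    -- non-adjacent pairs
    set P1 := W1.image (fun w => (u1, w)) with hP1
    set P2 := W1.image (fun w => (w, u1)) with hP2
    set P3 := W2.image (fun w => (u2, w)) with hP3
    set P4 := W2.image (fun w => (w, u2)) with hP4
    have c1 : P1.card = W1.card := Finset.card_image_of_injective _ (fun a b h => by simpa using h)
    have c2 : P2.card = W1.card := Finset.card_image_of_injective _ (fun a b h => by simpa using h)
    have c3 : P3.card = W2.card := Finset.card_image_of_injective _ (fun a b h => by simpa using h)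
    have c4 : P4.card = W2.card := Finset.card_image_of_injective _ (fun a b h => by simpa using h)
    have m1 : ∀ q ∈ P1, q.1 = u1 ∧ q.2 ∈ W1 := by
      intro q hq
      obtain ⟨w, hw, rfl⟩ := Finset.mem_image.1 hq
      exact ⟨rfl, hw⟩
    have m2 : ∀ q ∈ P2, q.2 = u1 ∧ q.1 ∈ W1 := by
      intro q hq
      obtain ⟨w, hw, rfl⟩ := Finset.mem_image.1 hq
      exact ⟨rfl, hw⟩
    have m3 : ∀ q ∈ P3, q.1 = u2 ∧ q.2 ∈ W2 := by
      intro q hq
      obtain ⟨w, hw, rfl⟩ := Finset.mem_image.1 hq
      exact ⟨rfl, hw⟩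
    have m4 : ∀ q ∈ P4, q.2 = u2 ∧ q.1 ∈ W2 := by
      intro q hq
      obtain ⟨w, hw, rfl⟩ := Finset.mem_image.1 hq
      exact ⟨rfl, hw⟩
    have e12 : Disjoint P1 P2 := by
      rw [Finset.disjoint_left]
      intro q h h'
      exact (hn1 _ (m2 q h').2).1 (m1 q h).1
    have e123 : Disjoint (P1 ∪ P2) P3 := by
      rw [Finset.disjoint_left]
      intro q h h'
      rcases Finset.mem_union.1 h with h | h
      · exact hu ((m3 q h').1.symm.trans (m1 q h).1)
      · exact (hn2 _ (m3 q h').2).2.1 (m2 q h).1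
    have e1234 : Disjoint (P1 ∪ P2 ∪ P3) P4 := by
      rw [Finset.disjoint_left]
      intro q h h'
      rcases Finset.mem_union.1 h with h | h
      · rcases Finset.mem_union.1 h with h | h
        · exact (hn2 _ (m4 q h').2).2.1 (m1 q h).1
        · exact hu ((m4 q h').1.symm.trans (m2 q h).1)
      · exact (hn2 _ (m4 q h').2).1 (m3 q h).1
    have eI : Disjoint I (P1 ∪ P2 ∪ P3 ∪ P4) := by
      rw [Finset.disjoint_left]
      intro q hq h
      simp only [hI, hD, Finset.mem_filter, Finset.mem_univ, true_and] at hq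
      have hadj := hq.1
      simp only [Finset.mem_union] at h
      rcases h with ((h | h) | h) | h
      · have h1 := m1 q h
        rw [h1.1] at hadj
        exact (hn1 _ h1.2).2 hadj
      · have h1 := m2 q h
        rw [h1.1] at hadj
        exact (hn1 _ h1.2).2 hadj.symm
      · have h1 := m3 q h
        rw [h1.1] at hadj
        exact (hn2 _ h1.2).2.2 hadj
      · have h1 := m4 q h
        rw [h1.1] at hadj
        exact (hn2 _ h1.2).2.2 hadj.symm
    have hsub : I ∪ (P1 ∪ P2 ∪ P3 ∪ P4) ⊆ X.offDiag := by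
      intro q hq
      rw [Finset.mem_offDiag]
      simp only [hI, hD, Finset.mem_union, Finset.mem_filter, Finset.mem_univ, true_and] at hq
      rcases hq with hq | (((h | h) | h) | h)
      · exact ⟨hq.2.1, hq.2.2, hq.1.ne⟩
      · have h1 := m1 q h
        exact ⟨by rw [h1.1]; exact hu1, hW1 h1.2, by rw [h1.1]; exact (hn1 _ h1.2).1.symm⟩
      · have h1 := m2 q h
        exact ⟨hW1 h1.2, by rw [h1.1]; exact hu1, by rw [h1.1]; exact (hn1 _ h1.2).1⟩
      · have h1 := m3 q h
        exact ⟨by rw [h1.1]; exact hu2, hW2 h1.2, by rw [h1.1]; exact (hn2 _ h1.2).1.symm⟩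
      · have h1 := m4 q h
        exact ⟨hW2 h1.2, by rw [h1.1]; exact hu2, by rw [h1.1]; exact (hn2 _ h1.2).1⟩
    have hfin := Finset.card_le_card hsub
    rw [Finset.card_union_of_disjoint eI, Finset.card_union_of_disjoint e1234,
      Finset.card_union_of_disjoint e123, Finset.card_union_of_disjoint e12, c1, c2, c3, c4,
      Finset.offDiag_card] at hfin
    -- `s ≤ |X| ≤ s + 1`
    have hXs : s ≤ X.card := by
      have hins : insert u1 W1 ⊆ X := Finset.insert_subset hu1 hW1
      have hu1W : u1 ∉ W1 := fun h => (hn1 u1 h).1 rfl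
      have := Finset.card_le_card hins
      rw [Finset.card_insert_of_notMem hu1W] at this
      omega
    rw [← hDcard]
    obtain ⟨m, rfl⟩ : ∃ m, s = m + 4 := ⟨s - 4, by omega⟩
    have hXle : X.card ≤ m + 5 := by omega
    have hXsq : X.card ≤ X.card * X.card := Nat.le_mul_self _
    have h7 : W1.card = m + 3 := by omega
    have h8 : W2.card = m + 2 := by omega
    have h9 : (m + 4 - 1) = m + 3 := by omega
    rw [h7, h8] at hfin
    rw [h9] at hIO ⊢
    have hcases : X.card = m + 4 ∨ X.card = m + 5 := by omega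
    rcases hcases with hx | hx
    · rw [hx] at hfin hIO
      have hf : I.card + (m + 3 + (m + 3) + (m + 2) + (m + 2)) + (m + 4) ≤ (m + 4) * (m + 4) := by
        have : m + 4 ≤ (m + 4) * (m + 4) := Nat.le_mul_self _
        omega
      nlinarith
    · rw [hx] at hfin hIO
      have hf : I.card + (m + 3 + (m + 3) + (m + 2) + (m + 2)) + (m + 5) ≤ (m + 5) * (m + 5) := by
        have : m + 5 ≤ (m + 5) * (m + 5) := Nat.le_mul_self _
        omega
      nlinarith

/-- The lower bound. -/
theorem lower (hs : 4 ≤ s) (hn : s ^ 2 + s ≤ n) {G : SimpleGraph (Fin n)} {χ : Sym2 (Fin n) → ℕ}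
    (hsat : WeaklySat (K1 s) G χ) (hno : ¬ HasRainbow (K1 s) G χ) :
    (s - 1) * (s + 2) < 2 * G.edgeSet.ncard := by
  classical
  have h1 : G.edgeSet.ncard = G.edgeFinset.card := by
    rw [← SimpleGraph.coe_edgeFinset, Set.ncard_coe_finset]
  rw [h1, ← SimpleGraph.sum_degrees_eq_twice_card_edges]
  by_contra hcon
  rw [not_lt] at hcon
  have hfree : ∀ v, (cols G χ v).card + 1 ≤ s := by
    intro v
    by_contra h
    exact hno (hasRainbow_of_cols (u := v) (by omega) (by omega))
  obtain ⟨ord, hord, hw⟩ := hsat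
  -- an isolated vertex
  obtain ⟨z, hz⟩ : ∃ z, G.degree z = 0 := by
    by_contra hno0
    push Not at hno0
    have h2 : ∑ _v : Fin n, 1 ≤ ∑ v, G.degree v :=
      Finset.sum_le_sum (fun v _ => Nat.one_le_iff_ne_zero.2 (hno0 v))
    rw [Finset.sum_const, Finset.card_univ, Fintype.card_fin, smul_eq_mul, mul_one] at h2
    have h3 : (s - 1) * (s + 2) < s ^ 2 + s := by
      obtain ⟨m, rfl⟩ : ∃ m, s = m + 1 := ⟨s - 1, by omega⟩
      have : m + 1 - 1 = m := by omega
      rw [this]
      nlinarith
    omega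
  have hzadj : ∀ w, w ≠ z → Gᶜ.Adj z w := by
    intro w hw'
    rw [SimpleGraph.compl_adj]
    refine ⟨hw'.symm, fun h => ?_⟩
    have : 0 < G.degree z := by
      rw [SimpleGraph.degree_pos_iff_exists_adj]
      exact ⟨w, h⟩
    omega
  have hzfull : ∃ t, s ≤ (Nb G ord t z).card + 1 := by
    refine ⟨(univ : Finset (Fin n)).sup (fun w => ord s(z, w)) + 1, ?_⟩
    have h2 : univ.erase z ⊆ Nb G ord
        ((univ : Finset (Fin n)).sup (fun w => ord s(z, w)) + 1) z := by
      intro w hw'
      rw [mem_Nb]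
      refine ⟨hzadj w (Finset.ne_of_mem_erase hw'), Nat.lt_succ_of_le ?_⟩
      exact Finset.le_sup (f := fun w => ord s(z, w)) (Finset.mem_univ w)
    have h3 := Finset.card_le_card h2
    rw [Finset.card_erase_of_mem (Finset.mem_univ _), Finset.card_univ, Fintype.card_fin] at h3
    have : s ≤ s ^ 2 + s := Nat.le_add_left _ _
    omega
  obtain ⟨tz, htz⟩ := hzfull
  -- the first full vertex
  have hex1 : ∃ t, ∃ v, s ≤ (Nb G ord t v).card + 1 := ⟨tz, z, htz⟩
  obtain ⟨u1, hu1⟩ := Nat.find_spec hex1
  set t1 := Nat.find hex1 with ht1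
  have hmin1 : ∀ t < t1, ∀ v ∉ (∅ : Finset (Fin n)), (Nb G ord t v).card + 2 ≤ s := by
    intro t ht v _
    have := Nat.find_min hex1 ht
    push Not at this
    have := this v
    omega
  have hph1 := phase hs hord hw hfree ∅ (by simp) t1 hmin1
  have hW1 : ∀ w ∈ Nb G ord t1 u1, (cols G χ u1).card + 1 = s ∧ (cols G χ w).card + 1 = s := by
    intro w hw'
    obtain ⟨h2, h3⟩ := mem_Nb.1 hw'
    exact hph1 _ h3 u1 w h2 rfl (by simp) (by simp)
  obtain ⟨W1, hW1sub, hW1card⟩ := Finset.exists_subset_card_eq (s := Nb G ord t1 u1) (n := s - 1)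
    (by omega)
  obtain ⟨w1, hw1⟩ : W1.Nonempty := by rw [← Finset.card_pos]; omega
  have hu1X := (hW1 w1 (hW1sub hw1)).1
  have hzu1 : z ≠ u1 := by
    rintro rfl
    have := cols_card_le_degree G χ z
    omega
  -- the second full vertex
  have hex2 : ∃ t, ∃ v, v ≠ u1 ∧ s ≤ (Nb G ord t v).card + 1 := ⟨tz, z, hzu1, htz⟩
  obtain ⟨u2, hu21, hu2⟩ := Nat.find_spec hex2
  set t2 := Nat.find hex2 with ht2
  have hmin2 : ∀ t < t2, ∀ v ∉ ({u1} : Finset (Fin n)), (Nb G ord t v).card + 2 ≤ s := by
    intro t ht v hv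
    have := Nat.find_min hex2 ht
    push Not at this
    have := this v (by simpa using hv)
    omega
  have hph2 := phase hs hord hw hfree {u1} (by simp) t2 hmin2
  have hW2 : ∀ w ∈ (Nb G ord t2 u2).erase u1,
      (cols G χ u2).card + 1 = s ∧ (cols G χ w).card + 1 = s := by
    intro w hw'
    obtain ⟨h2, h3⟩ := mem_Nb.1 (Finset.mem_of_mem_erase hw')
    exact hph2 _ h3 u2 w h2 rfl (by simpa using hu21) (by simpa using Finset.ne_of_mem_erase hw')
  obtain ⟨W2, hW2sub, hW2card⟩ := Finset.exists_subset_card_eq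
    (s := (Nb G ord t2 u2).erase u1) (n := s - 2) (by
      have := Finset.pred_card_le_card_erase (a := u1) (s := Nb G ord t2 u2)
      omega)
  obtain ⟨w2, hw2⟩ : W2.Nonempty := by rw [← Finset.card_pos]; omega
  have hu2X := (hW2 w2 (hW2sub hw2)).1
  have hfin := counting hs G (univ.filter (fun v => (cols G χ v).card + 1 = s))
    (fun v hv => by
      have h2 := (Finset.mem_filter.1 hv).2
      have h3 := cols_card_le_degree G χ v
      omega) hu21
    (Finset.mem_filter.2 ⟨Finset.mem_univ _, hu1X⟩)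
    (Finset.mem_filter.2 ⟨Finset.mem_univ _, hu2X⟩) W1 W2
    (fun w hw' => Finset.mem_filter.2 ⟨Finset.mem_univ _, (hW1 w (hW1sub hw')).2⟩)
    (fun w hw' => Finset.mem_filter.2 ⟨Finset.mem_univ _, (hW2 w (hW2sub hw')).2⟩)
    (by omega) (by omega)
    (fun w hw' => by
      obtain ⟨h2, -⟩ := mem_Nb.1 (hW1sub hw')
      rw [SimpleGraph.compl_adj] at h2
      exact ⟨h2.1.symm, h2.2⟩)
    (fun w hw' => by
      obtain ⟨h2, -⟩ := mem_Nb.1 (Finset.mem_of_mem_erase (hW2sub hw'))
      rw [SimpleGraph.compl_adj] at h2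
      exact ⟨h2.1.symm, Finset.ne_of_mem_erase (hW2sub hw'), h2.2⟩)
  omega

end Pool.Agent.V11134.RW
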