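import Pool.Agent.V11134.RW.Upper

/-!
# Lower bound for rainbow-star-free weakly saturated graphs: the adversary and the two phases
-/

set_option autoImplicit false

namespace Pool.Agent.V11134.RW

open Finset

variable {n s : ℕ}

theorem exists_injOn {E : Type} [DecidableEq E] (B : Finset E) (C : Finset ℕ)
    (h : B.card ≤ C.card) : ∃ φ : E → ℕ, (∀ x ∈ B, φ x ∈ C) ∧ Set.InjOn φ B := by
  obtain ⟨f⟩ : Nonempty ({x // x ∈ B} ↪ {q // q ∈ C}) :=
    Function.Embedding.nonempty_of_card_le (by simpa using h)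
  refine ⟨fun x => if hx : x ∈ B then (f ⟨x, hx⟩).1 else 0, ?_, ?_⟩
  · intro x hx
    simp only [hx, dif_pos]
    exact (f ⟨x, hx⟩).2
  · intro x hx y hy hxy
    have hx' : x ∈ B := hx
    have hy' : y ∈ B := hy
    simp only [hx', hy', dif_pos] at hxy
    have := f.injective (Subtype.ext hxy)
    simpa using this

theorem exists_extension {E : Type} [DecidableEq E] (code : E → ℕ) (hcode : Function.Injective code)
    (B : Finset E) (ψ : E → ℕ) (hψ : Set.InjOn ψ B) :
    ∃ col : E → ℕ, Function.Injective col ∧ ∀ x ∈ B, col x = ψ x := by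
  refine ⟨fun x => if x ∈ B then ψ x else B.sup ψ + 1 + code x, ?_, ?_⟩
  · intro x y hxy
    simp only at hxy
    by_cases hx : x ∈ B <;> by_cases hy : y ∈ B
    · rw [if_pos hx, if_pos hy] at hxy
      exact hψ hx hy hxy
    · rw [if_pos hx, if_neg hy] at hxy
      have := Finset.le_sup (f := ψ) hx
      omega
    · rw [if_neg hx, if_pos hy] at hxy
      have := Finset.le_sup (f := ψ) hy
      omega
    · rw [if_neg hx, if_neg hy] at hxy
      exact hcode (by omega)
  · intro x hx
    exact if_pos hx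

/-- The adversary's choice of colours. -/
theorem adversary (hs : 4 ≤ s) (Au Av : Finset ℕ) (ku kv : ℕ) (hu1 : Au.card + 2 ≤ s) (hu2 : ku ≤ 1)
    (hv : (Av.card + 1 = s ∧ kv + 2 ≤ s) ∨ (Av.card + 2 ≤ s ∧ kv ≤ 1)) :
    ∃ (c : ℕ) (Cu Cv : Finset ℕ), Cu.card = ku ∧ Cv.card = kv ∧ Disjoint Cu Cv ∧ c ∉ Cu ∧ c ∉ Cv ∧
      (insert c (Au ∪ Cu)).card + 1 ≤ s ∧ (insert c (Av ∪ Cv)).card + 1 ≤ s := by
  classical
  -- fresh colours
  obtain ⟨f0, hf0⟩ := Infinite.exists_notMem_finset (Au ∪ Av)
  have hf0u : f0 ∉ Au := fun h => hf0 (Finset.mem_union_left _ h)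
  have hf0v : f0 ∉ Av := fun h => hf0 (Finset.mem_union_right _ h)
  rcases hv with ⟨hv1, hv2⟩ | ⟨hv1, hv2⟩
  · -- `v` has `s - 1` colours
    -- choose `c` in `Av` and `x` for `u`
    have hcx : ∃ c ∈ Av, ∃ x, x ∉ Av.erase c ∧ x ≠ c ∧ (insert c (insert x Au)).card + 1 ≤ s := by
      by_cases hint : (Au ∩ Av).Nonempty
      · obtain ⟨c, hc⟩ := hint
        rw [Finset.mem_inter] at hc
        refine ⟨c, hc.2, f0, fun h => hf0v (Finset.mem_of_mem_erase h), ?_, ?_⟩
        · rintro rfl
          exact hf0v hc.2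
        · rw [Finset.insert_eq_of_mem (Finset.mem_insert_of_mem hc.1)]
          have := Finset.card_insert_le f0 Au
          omega
      · have hAv : Av.Nonempty := by rw [← Finset.card_pos]; omega
        obtain ⟨c, hc⟩ := hAv
        refine ⟨c, hc, ?_⟩
        rcases Au.eq_empty_or_nonempty with h0 | ⟨x, hx⟩
        · refine ⟨f0, fun h => hf0v (Finset.mem_of_mem_erase h), ?_, ?_⟩
          · rintro rfl
            exact hf0v hc
          · rw [h0]
            have h1 := Finset.card_insert_le c (insert f0 (∅ : Finset ℕ))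
            have h2 := Finset.card_insert_le f0 (∅ : Finset ℕ)
            rw [Finset.card_empty] at h2
            omega
        · have hxv : x ∉ Av := fun h => hint ⟨x, Finset.mem_inter.2 ⟨hx, h⟩⟩
          refine ⟨x, fun h => hxv (Finset.mem_of_mem_erase h), ?_, ?_⟩
          · rintro rfl
            exact hxv hc
          · rw [Finset.insert_eq_of_mem hx]
            have := Finset.card_insert_le c Au
            omega
    obtain ⟨c, hc, x, hx1, hx2, hx3⟩ := hcx
    obtain ⟨Cv, hCv, hCvcard⟩ := Finset.exists_subset_card_eq (s := Av.erase c) (n := kv)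
      (by rw [Finset.card_erase_of_mem hc]; omega)
    obtain ⟨Cu, hCu, hCucard⟩ := Finset.exists_subset_card_eq (s := {x}) (n := ku)
      (by rw [Finset.card_singleton]; exact hu2)
    refine ⟨c, Cu, Cv, hCucard, hCvcard, ?_, ?_, ?_, ?_, ?_⟩
    · rw [Finset.disjoint_left]
      intro y hy hy'
      have := Finset.mem_singleton.1 (hCu hy)
      subst this
      exact hx1 (hCv hy')
    · intro h
      exact hx2 (Finset.mem_singleton.1 (hCu h)).symm
    · intro h
      exact Finset.ne_of_mem_erase (hCv h) rfl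
    · refine le_trans (Nat.add_le_add_right (Finset.card_le_card ?_) 1) hx3
      intro y hy
      rcases Finset.mem_insert.1 hy with rfl | hy
      · exact Finset.mem_insert_self _ _
      · rcases Finset.mem_union.1 hy with hy | hy
        · exact Finset.mem_insert_of_mem (Finset.mem_insert_of_mem hy)
        · rw [Finset.mem_singleton.1 (hCu hy)]
          exact Finset.mem_insert_of_mem (Finset.mem_insert_self _ _)
    · have h1 : insert c (Av ∪ Cv) = Av := by
        ext y
        simp only [Finset.mem_insert, Finset.mem_union]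
        constructor
        · rintro (rfl | h | h)
          · exact hc
          · exact h
          · exact Finset.mem_of_mem_erase (hCv h)
        · exact fun h => Or.inr (Or.inl h)
      rw [h1]
      omega
  · -- `v` has few colours
    obtain ⟨x, hx⟩ : ∃ x, (insert x Au).card + 2 ≤ s ∧ x ≠ f0 := by
      rcases Au.eq_empty_or_nonempty with h0 | ⟨x, hx⟩
      · obtain ⟨x, hx⟩ := Infinite.exists_notMem_finset ({f0} : Finset ℕ)
        refine ⟨x, ?_, fun h => hx (by rw [h]; exact Finset.mem_singleton_self _)⟩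
        rw [h0]
        have h2 := Finset.card_insert_le x (∅ : Finset ℕ)
        rw [Finset.card_empty] at h2
        omega
      · refine ⟨x, ?_, ?_⟩
        · rw [Finset.insert_eq_of_mem hx]
          exact hu1
        · rintro rfl
          exact hf0u hx
    obtain ⟨y, hy⟩ : ∃ y, (insert y Av).card + 2 ≤ s ∧ y ≠ f0 ∧ y ≠ x := by
      rcases (Av.erase x).eq_empty_or_nonempty with h0 | ⟨y, hy⟩
      · obtain ⟨y, hy⟩ := Infinite.exists_notMem_finset ({f0, x} : Finset ℕ)
        rw [Finset.mem_insert, Finset.mem_singleton, not_or] at hy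
        refine ⟨y, ?_, hy.1, hy.2⟩
        have h1 := Finset.card_insert_le y Av
        have h2 := Finset.pred_card_le_card_erase (a := x) (s := Av)
        rw [h0, Finset.card_empty] at h2
        omega
      · refine ⟨y, ?_, ?_, Finset.ne_of_mem_erase hy⟩
        · rw [Finset.insert_eq_of_mem (Finset.mem_of_mem_erase hy)]
          exact hv1
        · rintro rfl
          exact hf0v (Finset.mem_of_mem_erase hy)
    obtain ⟨Cu, hCu, hCucard⟩ := Finset.exists_subset_card_eq (s := {x}) (n := ku)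
      (by rw [Finset.card_singleton]; exact hu2)
    obtain ⟨Cv, hCv, hCvcard⟩ := Finset.exists_subset_card_eq (s := {y}) (n := kv)
      (by rw [Finset.card_singleton]; exact hv2)
    have hsub : ∀ (A C : Finset ℕ) (w : ℕ), C ⊆ {w} → (insert w A).card + 2 ≤ s →
        (insert f0 (A ∪ C)).card + 1 ≤ s := by
      intro A C w hC hA
      have h1 : insert f0 (A ∪ C) ⊆ insert f0 (insert w A) := by
        intro z hz
        rcases Finset.mem_insert.1 hz with rfl | hz
        · exact Finset.mem_insert_self _ _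
        · rcases Finset.mem_union.1 hz with hz | hz
          · exact Finset.mem_insert_of_mem (Finset.mem_insert_of_mem hz)
          · rw [Finset.mem_singleton.1 (hC hz)]
            exact Finset.mem_insert_of_mem (Finset.mem_insert_self _ _)
      have h2 := Finset.card_le_card h1
      have h3 := Finset.card_insert_le f0 (insert w A)
      omega
    refine ⟨f0, Cu, Cv, hCucard, hCvcard, ?_, ?_, ?_, hsub _ _ x hCu hx.1, hsub _ _ y hCv hy.1⟩
    · rw [Finset.disjoint_left]
      intro z hz hz'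
      have h1 := Finset.mem_singleton.1 (hCu hz)
      have h2 := Finset.mem_singleton.1 (hCv hz')
      exact hy.2.2 (h2.symm.trans h1)
    · intro h
      exact hx.2 (Finset.mem_singleton.1 (hCu h)).symm
    · intro h
      exact hy.2.1 (Finset.mem_singleton.1 (hCv h)).symm

open Classical in
/-- The other ends of the missing edges at `v` added before time `t`. -/
noncomputable def Nb (G : SimpleGraph (Fin n)) (ord : Sym2 (Fin n) → ℕ) (t : ℕ) (v : Fin n) :
    Finset (Fin n) :=
  univ.filter (fun w => Gᶜ.Adj v w ∧ ord s(v, w) < t)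

theorem mem_Nb {G : SimpleGraph (Fin n)} {ord : Sym2 (Fin n) → ℕ} {t : ℕ} {v w : Fin n} :
    w ∈ Nb G ord t v ↔ Gᶜ.Adj v w ∧ ord s(v, w) < t := by
  simp [Nb]

/-- The key lemma: a missing edge with two weak ends cannot be added. -/
theorem key (hs : 4 ≤ s) {G : SimpleGraph (Fin n)} {χ ord : Sym2 (Fin n) → ℕ}
    (hord : Set.InjOn ord Gᶜ.edgeSet)
    (hw : ∀ col : Sym2 (Fin n) → ℕ, Set.InjOn col Gᶜ.edgeSet →
      ∀ e ∈ Gᶜ.edgeSet, RainbowThrough (K1 s) (stage G ord e) (fullCol G χ col) e)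
    {u v : Fin n} (huv : Gᶜ.Adj u v) (hu1 : (cols G χ u).card + 2 ≤ s)
    (hu2 : (Nb G ord (ord s(u, v)) u).card ≤ 1)
    (hv : ((cols G χ v).card + 1 = s ∧ (Nb G ord (ord s(u, v)) v).card + 2 ≤ s) ∨
      ((cols G χ v).card + 2 ≤ s ∧ (Nb G ord (ord s(u, v)) v).card ≤ 1)) : False := by
  classical
  obtain ⟨c, Cu, Cv, hCu, hCv, hdisj, hcu, hcv, hbu, hbv⟩ :=
    adversary hs (cols G χ u) (cols G χ v) _ _ hu1 hu2 hv
  set t := ord s(u, v) with ht
  set Bu : Finset (Sym2 (Fin n)) := (Nb G ord t u).image (fun w => s(u, w)) with hBu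
  set Bv : Finset (Sym2 (Fin n)) := (Nb G ord t v).image (fun w => s(v, w)) with hBv
  have hne : u ≠ v := huv.ne
  obtain ⟨φu, hφu, hφu'⟩ := exists_injOn Bu Cu (by
    rw [hCu, hBu]; exact Finset.card_image_le)
  obtain ⟨φv, hφv, hφv'⟩ := exists_injOn Bv Cv (by
    rw [hCv, hBv]; exact Finset.card_image_le)
  have hBu_mem : ∀ x ∈ Bu, ∃ w, x = s(u, w) ∧ Gᶜ.Adj u w ∧ ord s(u, w) < t := by
    intro x hx
    obtain ⟨w, hw, rfl⟩ := Finset.mem_image.1 hx
    exact ⟨w, rfl, mem_Nb.1 hw⟩
  have hBv_mem : ∀ x ∈ Bv, ∃ w, x = s(v, w) ∧ Gᶜ.Adj v w ∧ ord s(v, w) < t := by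
    intro x hx
    obtain ⟨w, hw, rfl⟩ := Finset.mem_image.1 hx
    exact ⟨w, rfl, mem_Nb.1 hw⟩
  have h1 : s(u, v) ∉ Bu := by
    intro h
    obtain ⟨w, hx, -, hlt⟩ := hBu_mem _ h
    rw [← hx] at hlt
    exact lt_irrefl _ hlt
  have h2 : s(u, v) ∉ Bv := by
    intro h
    obtain ⟨w, hx, -, hlt⟩ := hBv_mem _ h
    rw [← hx] at hlt
    exact lt_irrefl _ hlt
  have h3 : ∀ x ∈ Bu, x ∉ Bv := by
    intro x hx hx'
    obtain ⟨w, hxw, -, hlt⟩ := hBu_mem _ hx
    obtain ⟨w', hxw', -, -⟩ := hBv_mem _ hx'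
    rw [hxw] at hxw'
    rw [Sym2.eq_iff] at hxw'
    rcases hxw' with ⟨h, -⟩ | ⟨-, h⟩
    · exact hne h
    · rw [h] at hlt
      exact lt_irrefl _ hlt
  set ψ : Sym2 (Fin n) → ℕ := fun x => if x = s(u, v) then c else if x ∈ Bu then φu x else φv x
    with hψ
  have hψe : ψ s(u, v) = c := if_pos rfl
  have hψu : ∀ x ∈ Bu, ψ x = φu x := by
    intro x hx
    have h4 : x ≠ s(u, v) := fun h => h1 (h ▸ hx)
    simp only [hψ]
    rw [if_neg h4, if_pos hx]
  have hψv : ∀ x ∈ Bv, ψ x = φv x := by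
    intro x hx
    have h4 : x ≠ s(u, v) := fun h => h2 (h ▸ hx)
    simp only [hψ]
    rw [if_neg h4, if_neg (fun h => h3 x h hx)]
  have hinj : Set.InjOn ψ (insert s(u, v) (Bu ∪ Bv) : Finset (Sym2 (Fin n))) := by
    have hcases : ∀ x, x ∈ (insert s(u, v) (Bu ∪ Bv) : Finset (Sym2 (Fin n))) →
        (x = s(u, v) ∧ ψ x = c) ∨ (x ∈ Bu ∧ ψ x = φu x ∧ ψ x ∈ Cu) ∨
          (x ∈ Bv ∧ ψ x = φv x ∧ ψ x ∈ Cv) := by
      intro x hx
      rcases Finset.mem_insert.1 hx with rfl | hx
      · exact Or.inl ⟨rfl, hψe⟩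
      · rcases Finset.mem_union.1 hx with hx | hx
        · exact Or.inr (Or.inl ⟨hx, hψu x hx, by rw [hψu x hx]; exact hφu x hx⟩)
        · exact Or.inr (Or.inr ⟨hx, hψv x hx, by rw [hψv x hx]; exact hφv x hx⟩)
    intro x hx y hy hxy
    rcases hcases x hx with ⟨a1, a2⟩ | ⟨a1, a2, a3⟩ | ⟨a1, a2, a3⟩ <;>
      rcases hcases y hy with ⟨b1, b2⟩ | ⟨b1, b2, b3⟩ | ⟨b1, b2, b3⟩
    · rw [a1, b1]
    · rw [a2] at hxy
      exact absurd (hxy ▸ b3) hcu
    · rw [a2] at hxy
      exact absurd (hxy ▸ b3) hcv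
    · rw [b2] at hxy
      exact absurd (hxy ▸ a3) hcu
    · rw [a2, b2] at hxy
      exact hφu' a1 b1 hxy
    · rw [hxy] at a3
      exact absurd b3 (Finset.disjoint_left.1 hdisj a3)
    · rw [b2] at hxy
      exact absurd (hxy ▸ a3) hcv
    · rw [hxy] at a3
      exact absurd a3 (Finset.disjoint_left.1 hdisj b3)
    · rw [a2, b2] at hxy
      exact hφv' a1 b1 hxy
  obtain ⟨col, hcol, hcolψ⟩ := exists_extension (code n) (code_injective n) _ ψ hinj
  have hcole : col s(u, v) = c := by
    rw [hcolψ _ (Finset.mem_insert_self _ _), hψe]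
  have hcolu : ∀ x ∈ Bu, col x ∈ Cu := by
    intro x hx
    rw [hcolψ _ (Finset.mem_insert_of_mem (Finset.mem_union_left _ hx)), hψu x hx]
    exact hφu x hx
  have hcolv : ∀ x ∈ Bv, col x ∈ Cv := by
    intro x hx
    rw [hcolψ _ (Finset.mem_insert_of_mem (Finset.mem_union_right _ hx)), hψv x hx]
    exact hφv x hx
  -- the colours at the two ends
  have hends : ∀ (z : Fin n) (C : Finset ℕ),
      (∀ w, Gᶜ.Adj z w → ord s(z, w) < t → col s(z, w) ∈ C) →
      cols (stage G ord s(u, v)) (fullCol G χ col) z ⊆ insert c (cols G χ z ∪ C) := by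
    intro z C hC q hq
    obtain ⟨w, hadj, rfl⟩ := mem_cols.1 hq
    rcases hadj with hadj | hadj
    · have : fullCol G χ col s(z, w) = χ s(z, w) := if_pos hadj
      rw [this]
      exact Finset.mem_insert_of_mem (Finset.mem_union_left _ (mem_cols.2 ⟨w, hadj, rfl⟩))
    · rw [SimpleGraph.fromEdgeSet_adj] at hadj
      obtain ⟨⟨h4, h5⟩, -⟩ := hadj
      have h4' : Gᶜ.Adj z w := h4
      have h6 : fullCol G χ col s(z, w) = col s(z, w) := by
        rw [SimpleGraph.compl_adj] at h4'
        exact if_neg h4'.2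
      rw [h6]
      rcases lt_or_eq_of_le h5 with h7 | h7
      · exact Finset.mem_insert_of_mem (Finset.mem_union_right _ (hC w h4' h7))
      · have h8 := hord h4 huv h7
        rw [h8, hcole]
        exact Finset.mem_insert_self _ _
  have hU := hends u Cu (fun w hw1 hw2 => hcolu _ (Finset.mem_image.2 ⟨w, mem_Nb.2 ⟨hw1, hw2⟩, rfl⟩))
  have hV := hends v Cv (fun w hw1 hw2 => hcolv _ (Finset.mem_image.2 ⟨w, mem_Nb.2 ⟨hw1, hw2⟩, rfl⟩))
  rcases (hw col (hcol.injOn) s(u, v) huv).cols with h | h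
  · have := Finset.card_le_card hU
    omega
  · have := Finset.card_le_card hV
    omega

/-- While the vertices outside `F` (a set of at most one vertex) are not full, only missing edges between
vertices with `s - 1` colours, or at `F`, are added. -/
theorem phase (hs : 4 ≤ s) {G : SimpleGraph (Fin n)} {χ ord : Sym2 (Fin n) → ℕ}
    (hord : Set.InjOn ord Gᶜ.edgeSet)
    (hw : ∀ col : Sym2 (Fin n) → ℕ, Set.InjOn col Gᶜ.edgeSet →
      ∀ e ∈ Gᶜ.edgeSet, RainbowThrough (K1 s) (stage G ord e) (fullCol G χ col) e)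
    (hfree : ∀ v, (cols G χ v).card + 1 ≤ s) (F : Finset (Fin n)) (hF : F.card ≤ 1) (T : ℕ)
    (hfull : ∀ t < T, ∀ v ∉ F, (Nb G ord t v).card + 2 ≤ s) :
    ∀ t < T, ∀ u v, Gᶜ.Adj u v → ord s(u, v) = t → u ∉ F → v ∉ F →
      (cols G χ u).card + 1 = s ∧ (cols G χ v).card + 1 = s := by
  classical
  intro t
  induction t using Nat.strong_induction_on with
  | _ t ih =>
    intro htT u v huv htuv hu hv
    have hsmall : ∀ z, z ∉ F → (cols G χ z).card + 1 ≠ s → (Nb G ord t z).card ≤ 1 := by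
      intro z hz hzc
      refine (Finset.card_le_card ?_).trans hF
      intro w hwz
      obtain ⟨h1, h2⟩ := mem_Nb.1 hwz
      by_contra hwF
      exact hzc (ih _ h2 (h2.trans htT) z w h1 rfl hz hwF).1
    have hone : ∀ u v, Gᶜ.Adj u v → ord s(u, v) = t → u ∉ F → v ∉ F →
        (cols G χ u).card + 1 = s := by
      intro u v huv htuv hu hv
      by_contra hcu
      have h1 := hfree u
      have h2 := hfree v
      refine key hs hord hw huv (by omega) (by rw [htuv]; exact hsmall u hu hcu) ?_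
      by_cases hcv : (cols G χ v).card + 1 = s
      · left
        rw [htuv]
        exact ⟨hcv, hfull t htT v hv⟩
      · right
        rw [htuv]
        exact ⟨by omega, hsmall v hv hcv⟩
    refine ⟨hone u v huv htuv hu hv, hone v u huv.symm ?_ hv hu⟩
    rw [Sym2.eq_swap]
    exact htuv

end Pool.Agent.V11134.RW
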