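import Pool.Agent.V11134.RW.Defs

/-!
# Rainbow stars
-/

set_option autoImplicit false

namespace Pool.Agent.V11134.RW

open Finset

variable {n s : ℕ}

/-- The star with `s` edges. -/
abbrev K1 (s : ℕ) : SimpleGraph (Fin 1 ⊕ Fin s) := completeBipartiteGraph (Fin 1) (Fin s)

theorem mem_edge_K1 {x : Sym2 (Fin 1 ⊕ Fin s)} :
    x ∈ (K1 s).edgeSet ↔ ∃ j : Fin s, x = s(.inl 0, .inr j) := by
  induction x using Sym2.ind with
  | _ u v =>
    rw [SimpleGraph.mem_edgeSet]
    rcases u with u | u <;> rcases v with v | v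
    · simp [K1]
    · have : u = 0 := Subsingleton.elim _ _
      subst this
      simp [K1]
    · have : v = 0 := Subsingleton.elim _ _
      subst this
      simp [K1]
    · simp [K1]

open Classical in
/-- The colours at a vertex. -/
noncomputable def cols (G : SimpleGraph (Fin n)) (c : Sym2 (Fin n) → ℕ) (v : Fin n) : Finset ℕ :=
  (univ.filter (fun w => G.Adj v w)).image (fun w => c s(v, w))

theorem mem_cols {G : SimpleGraph (Fin n)} {c : Sym2 (Fin n) → ℕ} {v : Fin n} {q : ℕ} :
    q ∈ cols G c v ↔ ∃ w, G.Adj v w ∧ c s(v, w) = q := by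
  simp [cols]

/-- A rainbow star through an edge gives many colours at one of its ends. -/
theorem RainbowThrough.cols {G : SimpleGraph (Fin n)} {c : Sym2 (Fin n) → ℕ} {u v : Fin n}
    (h : RainbowThrough (K1 s) G c s(u, v)) :
    s ≤ (cols G c u).card ∨ s ≤ (cols G c v).card := by
  obtain ⟨f, hf, hadj, hinj, x, hx, hxe⟩ := h
  have hcard : s ≤ (Pool.Agent.V11134.RW.cols G c (f (.inl 0))).card := by
    have h1 : (univ : Finset (Fin s)).card ≤
        (Pool.Agent.V11134.RW.cols G c (f (.inl 0))).card := by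
      refine Finset.card_le_card_of_injOn (fun j => c s(f (.inl 0), f (.inr j))) ?_ ?_
      · intro j _
        exact mem_cols.2 ⟨_, hadj _ _ (by simp [K1]), rfl⟩
      · intro j _ j' _ hjj
        have := hinj (mem_edge_K1.2 ⟨j, rfl⟩) (mem_edge_K1.2 ⟨j', rfl⟩) hjj
        simpa using this
    simpa using h1
  obtain ⟨j, rfl⟩ := mem_edge_K1.1 hx
  simp only [Sym2.map_mk, Sym2.eq_iff] at hxe
  rcases hxe with ⟨h1, -⟩ | ⟨h1, -⟩
  · left; rwa [h1] at hcard
  · right; rwa [h1] at hcard

/-- Many colours at a vertex give a rainbow star through a given edge. -/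
theorem rainbowThrough_of_cols {G : SimpleGraph (Fin n)} {c : Sym2 (Fin n) → ℕ} {u v : Fin n}
    (huv : G.Adj u v) {Q : Finset ℕ} (hQ : ∀ q ∈ Q, ∃ w, G.Adj u w ∧ c s(u, w) = q)
    (hQc : c s(u, v) ∉ Q) (hcard : s ≤ Q.card + 1) (hs : 1 ≤ s) :
    RainbowThrough (K1 s) G c s(u, v) := by
  classical
  -- we need a set of exactly `s` colours containing the colour of `uv`
  obtain ⟨Q2, hQ2, hQ2card⟩ := Finset.exists_subset_card_eq (s := Q) (n := s - 1) (by omega)
  have hc2 : c s(u, v) ∉ Q2 := fun h => hQc (hQ2 h)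
  set R := insert (c s(u, v)) Q2 with hR
  have hRcard : R.card = s := by
    rw [hR, Finset.card_insert_of_notMem hc2, hQ2card]
    omega
  have hRw : ∀ q : {q // q ∈ R}, ∃ w, G.Adj u w ∧ c s(u, w) = q.1 ∧ (q.1 = c s(u, v) → w = v) := by
    rintro ⟨q, hq⟩
    by_cases h : q = c s(u, v)
    · exact ⟨v, huv, h.symm, fun _ => rfl⟩
    · have : q ∈ Q2 := by
        rcases Finset.mem_insert.1 hq with h' | h'
        · exact absurd h' h
        · exact h'
      obtain ⟨w, hw, hwq⟩ := hQ q (hQ2 this)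
      exact ⟨w, hw, hwq, fun h' => absurd h' h⟩
  choose w hw hwq hwv using hRw
  let e : Fin s ≃ {q // q ∈ R} := (Fintype.equivFinOfCardEq (by simpa using hRcard)).symm
  let f : Fin 1 ⊕ Fin s → Fin n := fun x => match x with
    | .inl _ => u
    | .inr j => w (e j)
  refine ⟨f, ?_, ?_, ?_, ?_⟩
  · intro x y hxy
    rcases x with x | j <;> rcases y with y | j'
    · rw [Subsingleton.elim x y]
    · exact absurd hxy (hw (e j')).ne
    · exact absurd hxy.symm (hw (e j)).ne
    · have h1 : w (e j) = w (e j') := hxy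
      have h2 : (e j).1 = (e j').1 := by rw [← hwq (e j), ← hwq (e j'), h1]
      rw [e.injective (Subtype.ext h2)]
  · intro x y hxy
    rcases x with x | j <;> rcases y with y | j'
    · simp at hxy
    · exact hw _
    · exact (hw _).symm
    · simp at hxy
  · intro x hx y hy hxy
    obtain ⟨j, rfl⟩ := mem_edge_K1.1 hx
    obtain ⟨j', rfl⟩ := mem_edge_K1.1 hy
    have h1 : c s(u, w (e j)) = c s(u, w (e j')) := hxy
    rw [hwq, hwq] at h1
    rw [e.injective (Subtype.ext h1)]
  · refine ⟨s(.inl 0, .inr (e.symm ⟨c s(u, v), Finset.mem_insert_self _ _⟩)),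
      mem_edge_K1.2 ⟨_, rfl⟩, ?_⟩
    have h1 : w (e (e.symm ⟨c s(u, v), Finset.mem_insert_self _ _⟩)) = v := by
      rw [Equiv.apply_symm_apply]
      exact hwv _ rfl
    simp only [Sym2.map_mk, f]
    rw [h1]

/-- A vertex with `s` colours is the centre of a rainbow star. -/
theorem hasRainbow_of_cols {G : SimpleGraph (Fin n)} {c : Sym2 (Fin n) → ℕ} {u : Fin n}
    (hs : 1 ≤ s) (h : s ≤ (cols G c u).card) : HasRainbow (K1 s) G c := by
  classical
  have hne : (cols G c u).Nonempty := by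
    rw [← Finset.card_pos]; omega
  obtain ⟨q, hq⟩ := hne
  obtain ⟨v, hv, hvq⟩ := mem_cols.1 hq
  obtain ⟨f, h1, h2, h3, -⟩ := rainbowThrough_of_cols (s := s) (c := c) hv (Q := (cols G c u).erase q)
    (fun q' hq' => mem_cols.1 (Finset.mem_of_mem_erase hq'))
    (by rw [hvq]; exact Finset.notMem_erase _ _)
    (by rw [Finset.card_erase_of_mem hq]; omega) hs
  exact ⟨f, h1, h2, h3⟩

end Pool.Agent.V11134.RW
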