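import Pool.Agent.V11134.RW.Star

/-!
# Upper bound for the weak rainbow saturation number of a star
-/

set_option autoImplicit false

namespace Pool.Agent.V11134.RW

open Finset

variable {n s : ℕ}

/-- `K_{s+1}` minus the edge `{s-1, s}`. -/
def G0 (n s : ℕ) : SimpleGraph (Fin n) where
  Adj u v := u ≠ v ∧ u.val ≤ s ∧ v.val ≤ s ∧ (u.val + 1 < s ∨ v.val + 1 < s)
  symm := ⟨fun u v h => ⟨h.1.symm, h.2.2.1, h.2.1, h.2.2.2.symm⟩⟩
  loopless := ⟨fun u h => h.1 rfl⟩

theorem G0_adj {u v : Fin n} :
    (G0 n s).Adj u v ↔ u ≠ v ∧ u.val ≤ s ∧ v.val ≤ s ∧ (u.val + 1 < s ∨ v.val + 1 < s) := Iff.rfl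

/-- An injective numbering of the pairs. -/
noncomputable def code (n : ℕ) (e : Sym2 (Fin n)) : ℕ := (Fintype.equivFin (Sym2 (Fin n)) e).val

theorem code_injective (n : ℕ) : Function.Injective (code n) := fun e e' h =>
  (Fintype.equivFin _).injective (Fin.ext h)

theorem code_lt (e : Sym2 (Fin n)) : code n e < Fintype.card (Sym2 (Fin n)) :=
  (Fintype.equivFin (Sym2 (Fin n)) e).2

theorem card_filter_lt (n k : ℕ) : (univ.filter (fun v : Fin n => v.val < k)).card ≤ k := by
  have : (univ.filter (fun v : Fin n => v.val < k)).card ≤ (Finset.range k).card := by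
    refine Finset.card_le_card_of_injOn Fin.val ?_ (fun x _ y _ h => Fin.ext h)
    intro v hv
    exact Finset.mem_coe.2 (Finset.mem_range.2 (Finset.mem_filter.1 hv).2)
  simpa using this

theorem le_card_filter_lt {n k : ℕ} (hk : k ≤ n) :
    k ≤ (univ.filter (fun v : Fin n => v.val < k)).card := by
  have : (univ : Finset (Fin k)).card ≤ (univ.filter (fun v : Fin n => v.val < k)).card := by
    refine Finset.card_le_card_of_injOn (Fin.castLE hk) ?_
      (fun x _ y _ h => Fin.castLE_injective hk h)
    intro v _
    exact Finset.mem_coe.2 (Finset.mem_filter.2 ⟨Finset.mem_univ _, v.2⟩)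
  simpa using this

theorem ncard_G0 (n s : ℕ) (hs : 1 ≤ s) : 2 * (G0 n s).edgeSet.ncard ≤ (s - 1) * (s + 2) := by
  classical
  have h1 : (G0 n s).edgeSet.ncard = (G0 n s).edgeFinset.card := by
    rw [← SimpleGraph.coe_edgeFinset, Set.ncard_coe_finset]
  rw [h1, ← SimpleGraph.sum_degrees_eq_twice_card_edges]
  have hdeg : ∀ v : Fin n, (G0 n s).degree v ≤
      (if v.val < s - 1 then s else 0) + (if s - 1 ≤ v.val ∧ v.val < s + 1 then s - 1 else 0) := by
    intro v
    by_cases h2 : v.val < s - 1
    · rw [if_pos h2, if_neg (by omega), Nat.add_zero, ← SimpleGraph.card_neighborFinset_eq_degree]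
      have h3 : (G0 n s).neighborFinset v ⊆ (univ.filter (fun w : Fin n => w.val < s + 1)).erase v := by
        intro w hw
        rw [SimpleGraph.mem_neighborFinset, G0_adj] at hw
        exact Finset.mem_erase.2 ⟨hw.1.symm, Finset.mem_filter.2 ⟨Finset.mem_univ _, by omega⟩⟩
      have hv : v ∈ univ.filter (fun w : Fin n => w.val < s + 1) :=
        Finset.mem_filter.2 ⟨Finset.mem_univ _, by omega⟩
      refine (Finset.card_le_card h3).trans ?_
      rw [Finset.card_erase_of_mem hv]
      have := card_filter_lt n (s + 1)
      omega
    · rw [if_neg h2, Nat.zero_add]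
      by_cases h4 : s - 1 ≤ v.val ∧ v.val < s + 1
      · rw [if_pos h4, ← SimpleGraph.card_neighborFinset_eq_degree]
        have h3 : (G0 n s).neighborFinset v ⊆ (univ.filter (fun w : Fin n => w.val < s - 1)) := by
          intro w hw
          rw [SimpleGraph.mem_neighborFinset, G0_adj] at hw
          exact Finset.mem_filter.2 ⟨Finset.mem_univ _, by omega⟩
        exact (Finset.card_le_card h3).trans (card_filter_lt n (s - 1))
      · rw [if_neg h4, ← SimpleGraph.card_neighborFinset_eq_degree]
        have h3 : (G0 n s).neighborFinset v = ∅ := by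
          rw [Finset.eq_empty_iff_forall_notMem]
          intro w hw
          rw [SimpleGraph.mem_neighborFinset, G0_adj] at hw
          omega
        rw [h3]; simp
  refine (Finset.sum_le_sum (fun v _ => hdeg v)).trans ?_
  rw [Finset.sum_add_distrib, ← Finset.sum_filter, ← Finset.sum_filter, Finset.sum_const,
    Finset.sum_const, smul_eq_mul, smul_eq_mul]
  have h5 : (univ.filter (fun v : Fin n => s - 1 ≤ v.val ∧ v.val < s + 1)).card ≤ 2 := by
    have : (univ.filter (fun v : Fin n => s - 1 ≤ v.val ∧ v.val < s + 1)).card ≤
        (Finset.Ico (s - 1) (s + 1)).card := by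
      refine Finset.card_le_card_of_injOn Fin.val ?_ (fun x _ y _ h => Fin.ext h)
      intro v hv
      exact Finset.mem_coe.2 (Finset.mem_Ico.2 (Finset.mem_filter.1 hv).2)
    rw [Nat.card_Ico] at this
    omega
  have h6 := card_filter_lt n (s - 1)
  calc _ ≤ (s - 1) * s + 2 * (s - 1) :=
        Nat.add_le_add (Nat.mul_le_mul_right _ h6) (Nat.mul_le_mul_right _ h5)
    _ = (s - 1) * (s + 2) := by ring

open Classical in
/-- The stage of a missing edge. -/
noncomputable def stg (n s : ℕ) (e : Sym2 (Fin n)) : ℕ :=
  if (∀ v ∈ e, v.val ≤ s) then 0 else if (∃ v ∈ e, v.val + 1 < s) then 1 else 2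

theorem weaklySat_G0 (hs : 2 ≤ s) (hn : s + 1 ≤ n) :
    WeaklySat (K1 s) (G0 n s) (code n) := by
  classical
  set N := Fintype.card (Sym2 (Fin n)) with hN
  refine ⟨fun e => stg n s e * N + code n e, ?_, ?_⟩
  · intro e _ e' _ h
    simp only at h
    have h1 := code_lt e
    have h2 := code_lt e'
    rw [← hN] at h1 h2
    have h3 : code n e = code n e' := by
      have h4 := congrArg (· % N) h
      simp only [Nat.mul_add_mod_self_right] at h4
      rwa [Nat.mod_eq_of_lt h1, Nat.mod_eq_of_lt h2] at h4
    exact code_injective n h3
  · intro col hcol e he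
    set ord : Sym2 (Fin n) → ℕ := fun e => stg n s e * N + code n e with hord
    have hord_lt : ∀ e e', stg n s e < stg n s e' → ord e ≤ ord e' := by
      intro e e' h
      have h1 := code_lt e
      rw [← hN] at h1
      simp only [hord]
      nlinarith
    -- colours and edges of the stage graph
    have hG : ∀ {u v : Fin n}, (G0 n s).Adj u v → (stage (G0 n s) ord e).Adj u v := fun h =>
      Or.inl h
    have hGc : ∀ {u v : Fin n}, (G0 n s).Adj u v → fullCol (G0 n s) (code n) col s(u, v) =
        code n s(u, v) := fun h => if_pos h
    have hN1 : ∀ {u v : Fin n}, (G0 n s)ᶜ.Adj u v → ord s(u, v) ≤ ord e →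
        (stage (G0 n s) ord e).Adj u v := by
      intro u v h h'
      refine Or.inr ?_
      rw [SimpleGraph.fromEdgeSet_adj]
      exact ⟨⟨h, h'⟩, h.ne⟩
    have hNc : ∀ {u v : Fin n}, (G0 n s)ᶜ.Adj u v → fullCol (G0 n s) (code n) col s(u, v) =
        col s(u, v) := by
      intro u v h
      rw [SimpleGraph.compl_adj] at h
      exact if_neg h.2
    induction e using Sym2.ind with
    | _ u v =>
    have huv : (G0 n s)ᶜ.Adj u v := he
    have huv' := huv
    rw [SimpleGraph.compl_adj, G0_adj] at huv'
    have hnadj := huv'.2
    have hne := huv'.1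
    have hself : (stage (G0 n s) ord s(u, v)).Adj u v := hN1 huv le_rfl
    by_cases hst0 : u.val ≤ s ∧ v.val ≤ s
    · -- stage 0
      have hu : s ≤ u.val + 1 := by by_contra h; exact hnadj ⟨hne, hst0.1, hst0.2, Or.inl (by omega)⟩
      have hv : s ≤ v.val + 1 := by by_contra h; exact hnadj ⟨hne, hst0.1, hst0.2, Or.inr (by omega)⟩
      -- colours at `x ∈ {u, v}`
      have hQ : ∀ x y : Fin n, x ≠ y → x.val ≤ s → s ≤ x.val + 1 → y.val ≤ s → s ≤ y.val + 1 →
          (stage (G0 n s) ord s(u, v)).Adj x y → s(x, y) = s(u, v) →
          col s(u, v) ∉ (univ.filter (fun w : Fin n => w.val < s - 1)).image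
            (fun w => code n s(x, w)) →
          RainbowThrough (K1 s) (stage (G0 n s) ord s(u, v)) (fullCol (G0 n s) (code n) col)
            s(x, y) := by
        intro x y hxy hx1 hx2 hy1 hy2 hadj hexy hnot
        refine rainbowThrough_of_cols (Q := (univ.filter (fun w : Fin n => w.val < s - 1)).image
            (fun w => code n s(x, w))) hadj ?_ ?_ ?_ (by omega)
        · intro q hq
          obtain ⟨w, hw, rfl⟩ := Finset.mem_image.1 hq
          have hw' := (Finset.mem_filter.1 hw).2
          have hxw : (G0 n s).Adj x w := by
            refine ⟨?_, hx1, by omega, Or.inr (by omega)⟩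
            rintro rfl
            omega
          exact ⟨w, hG hxw, hGc hxw⟩
        · have : fullCol (G0 n s) (code n) col s(x, y) = col s(u, v) := by
            rw [hexy]
            exact hNc huv
          rw [this]
          exact hnot
        · rw [Finset.card_image_of_injective]
          · have := le_card_filter_lt (n := n) (k := s - 1) (by omega)
            omega
          · intro w w' hww
            have h3 := code_injective n hww
            rw [Sym2.eq_iff] at h3
            rcases h3 with ⟨-, h3⟩ | ⟨h3, h4⟩
            · exact h3
            · exact h4.trans h3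
      by_cases hc : col s(u, v) ∈ (univ.filter (fun w : Fin n => w.val < s - 1)).image
            (fun w => code n s(u, w))
      · have h1 := hQ v u hne.symm hst0.2 hv hst0.1 hu hself.symm Sym2.eq_swap (by
          intro hc'
          obtain ⟨w, hw, hwc⟩ := Finset.mem_image.1 hc
          obtain ⟨w', hw', hwc'⟩ := Finset.mem_image.1 hc'
          have h3 := code_injective n (hwc.trans hwc'.symm)
          have hw1 := (Finset.mem_filter.1 hw).2
          have hw1' := (Finset.mem_filter.1 hw').2
          rw [Sym2.eq_iff] at h3
          rcases h3 with ⟨h3, -⟩ | ⟨h3, -⟩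
          · exact hne h3
          · rw [h3] at hu
            omega)
        have hsw : s(v, u) = s(u, v) := Sym2.eq_swap
        rwa [hsw] at h1
      · exact hQ u v hne hst0.1 hu hst0.2 hv hself rfl hc
    · -- one of the vertices is outside
      by_cases hst1 : u.val + 1 < s ∨ v.val + 1 < s
      · -- stage 1
        have hmain : ∀ x y : Fin n, x.val + 1 < s → s < y.val →
            (stage (G0 n s) ord s(u, v)).Adj x y →
            RainbowThrough (K1 s) (stage (G0 n s) ord s(u, v)) (fullCol (G0 n s) (code n) col)
              s(x, y) := by
          intro x y hx hy hadj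
          set Q0 := ((univ.filter (fun w : Fin n => w.val < s + 1)).erase x).image
            (fun w => code n s(x, w)) with hQ0
          have hQ0card : s ≤ Q0.card := by
            rw [hQ0, Finset.card_image_of_injective]
            · rw [Finset.card_erase_of_mem
                (Finset.mem_filter.2 ⟨Finset.mem_univ _, by omega⟩)]
              have := le_card_filter_lt (n := n) (k := s + 1) hn
              omega
            · intro w w' hww
              have h3 := code_injective n hww
              rw [Sym2.eq_iff] at h3
              rcases h3 with ⟨-, h3⟩ | ⟨h3, h4⟩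
              · exact h3
              · exact h4.trans h3
          refine rainbowThrough_of_cols
            (Q := Q0.erase (fullCol (G0 n s) (code n) col s(x, y))) hadj ?_ ?_ ?_ (by omega)
          · intro q hq
            obtain ⟨w, hw, rfl⟩ := Finset.mem_image.1 (Finset.mem_of_mem_erase hq)
            have hw' := (Finset.mem_filter.1 (Finset.mem_of_mem_erase hw)).2
            have hwx := Finset.ne_of_mem_erase hw
            have hxw : (G0 n s).Adj x w := ⟨hwx.symm, by omega, by omega, Or.inl hx⟩
            exact ⟨w, hG hxw, hGc hxw⟩
          · exact Finset.notMem_erase _ _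
          · have := Finset.pred_card_le_card_erase
              (a := fullCol (G0 n s) (code n) col s(x, y)) (s := Q0)
            omega
        rcases hst1 with h1 | h1
        · refine hmain u v h1 ?_ hself
          by_contra h2
          exact hst0 ⟨by omega, by omega⟩
        · have h3 := hmain v u h1 (by
            by_contra h2
            exact hst0 ⟨by omega, by omega⟩) hself.symm
          have hsw : s(v, u) = s(u, v) := Sym2.eq_swap
          rwa [hsw] at h3
      · -- stage 2
        have hstg : stg n s s(u, v) = 2 := by
          unfold stg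
          rw [if_neg, if_neg]
          · rintro ⟨w, hw, hws⟩
            rcases Sym2.mem_iff.1 hw with rfl | rfl
            · exact hst1 (Or.inl hws)
            · exact hst1 (Or.inr hws)
          · intro hall
            exact hst0 ⟨hall u (Sym2.mem_mk_left _ _), hall v (Sym2.mem_mk_right _ _)⟩
        have hmain : ∀ x y : Fin n, s < x.val → s ≤ y.val + 1 → s(x, y) = s(u, v) →
            (stage (G0 n s) ord s(u, v)).Adj x y →
            RainbowThrough (K1 s) (stage (G0 n s) ord s(u, v)) (fullCol (G0 n s) (code n) col)
              s(x, y) := by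
          intro x y hx hy hexy hadj
          have hxc : ∀ w : Fin n, w.val < s - 1 → (G0 n s)ᶜ.Adj x w := by
            intro w hw
            rw [SimpleGraph.compl_adj, G0_adj]
            refine ⟨?_, ?_⟩
            · rintro rfl
              omega
            · omega
          refine rainbowThrough_of_cols (Q := (univ.filter (fun w : Fin n => w.val < s - 1)).image
            (fun w => col s(x, w))) hadj ?_ ?_ ?_ (by omega)
          · intro q hq
            obtain ⟨w, hw, rfl⟩ := Finset.mem_image.1 hq
            have hw' := (Finset.mem_filter.1 hw).2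
            have hst : stg n s s(x, w) = 1 := by
              unfold stg
              rw [if_neg, if_pos]
              · exact ⟨w, Sym2.mem_mk_right _ _, by omega⟩
              · intro hall
                have := hall x (Sym2.mem_mk_left _ _)
                omega
            exact ⟨w, hN1 (hxc w hw') (hord_lt _ _ (by rw [hst, hstg]; omega)), hNc (hxc w hw')⟩
          · have h1 : fullCol (G0 n s) (code n) col s(x, y) = col s(u, v) := by
              rw [hexy]
              exact hNc huv
            rw [h1]
            intro hmem
            obtain ⟨w, hw, hwc⟩ := Finset.mem_image.1 hmem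
            have hw' := (Finset.mem_filter.1 hw).2
            have h2 := hcol (hxc w hw') he hwc
            rw [← hexy, Sym2.eq_iff] at h2
            rcases h2 with ⟨-, h2⟩ | ⟨-, h2⟩
            · rw [← h2] at hy
              omega
            · rw [h2] at hw'
              omega
          · rw [Finset.card_image_of_injOn]
            · have := le_card_filter_lt (n := n) (k := s - 1) (by omega)
              omega
            · intro w hw w' hw' hww
              have hw1 := (Finset.mem_filter.1 (Finset.mem_coe.1 hw)).2
              have hw1' := (Finset.mem_filter.1 (Finset.mem_coe.1 hw')).2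
              have h3 := hcol (hxc w hw1) (hxc w' hw1') hww
              rw [Sym2.eq_iff] at h3
              rcases h3 with ⟨-, h3⟩ | ⟨h3, h4⟩
              · exact h3
              · exact h4.trans h3
        by_cases hus : u.val ≤ s
        · have hvs : s < v.val := by
            by_contra h
            exact hst0 ⟨hus, by omega⟩
          have h3 := hmain v u hvs (by
            by_contra h
            exact hst1 (Or.inl (by omega))) Sym2.eq_swap hself.symm
          have hsw : s(v, u) = s(u, v) := Sym2.eq_swap
          rwa [hsw] at h3
        · exact hmain u v (by omega) (by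
            by_contra h
            exact hst1 (Or.inr (by omega))) rfl hself

end Pool.Agent.V11134.RW
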